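import Mathlib

set_option autoImplicit false

namespace Pool.Agent.Helper85.PowerFree

variable {S : Type*} [DecidableEq S]

/-- `mu w p m`: the length of the longest block ending at position `m` (excluded) of the word
`w 0, w 1, ..., w (m-1)` that coincides with its copy shifted by `p` to the left. -/
def mu (w : ℕ → S) (p : ℕ) : ℕ → ℕ
  | 0 => 0
  | (m + 1) => if p ≤ m ∧ w m = w (m - p) then mu w p m + 1 else 0

lemma mu_zero (w : ℕ → S) (p : ℕ) : mu w p 0 = 0 := rfl

lemma mu_succ (w : ℕ → S) (p m : ℕ) :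
    mu w p (m + 1) = if p ≤ m ∧ w m = w (m - p) then mu w p m + 1 else 0 := rfl

lemma mu_add_le (w : ℕ → S) (p m : ℕ) (h : 0 < mu w p m) : mu w p m + p ≤ m := by
  induction m with
  | zero => simp [mu] at h
  | succ m ih =>
    rw [mu_succ] at h ⊢
    split_ifs at h ⊢ with hc
    · by_cases h0 : 0 < mu w p m
      · have := ih h0; omega
      · have h1 : mu w p m = 0 := by omega
        rw [h1]; omega
    · omega

lemma mu_spec (w : ℕ → S) (p : ℕ) : ∀ m i, i < mu w p m →
    p + i < m ∧ w (m - 1 - i) = w (m - 1 - i - p) := by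
  intro m
  induction m with
  | zero => intro i hi; simp [mu] at hi
  | succ m ih =>
    intro i hi
    rw [mu_succ] at hi
    split_ifs at hi with hc
    · rcases i with _ | i
      · refine ⟨by omega, ?_⟩
        simpa using hc.2
      · have h1 := ih i (by omega)
        refine ⟨by omega, ?_⟩
        have e1 : m + 1 - 1 - (i + 1) = m - 1 - i := by omega
        rw [e1]; exact h1.2
    · omega

lemma le_mu (w : ℕ → S) (p : ℕ) : ∀ m r, r + p ≤ m →
    (∀ i, i < r → w (m - 1 - i) = w (m - 1 - i - p)) → r ≤ mu w p m := by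
  intro m
  induction m with
  | zero => intro r hr _; omega
  | succ m ih =>
    intro r hr h
    rcases r with _ | r
    · omega
    · rw [mu_succ]
      have h0 := h 0 (by omega)
      have hc : p ≤ m ∧ w m = w (m - p) := ⟨by omega, by simpa using h0⟩
      rw [if_pos hc]
      have := ih r (by omega) (fun i hi => by
        have h1 := h (i + 1) (by omega)
        have e1 : m + 1 - 1 - (i + 1) = m - 1 - i := by omega
        rw [e1] at h1; exact h1)
      omega

lemma mu_congr (w w' : ℕ → S) (p : ℕ) : ∀ m, (∀ i, i < m → w i = w' i) →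
    mu w p m = mu w' p m := by
  intro m
  induction m with
  | zero => intro _; rfl
  | succ m ih =>
    intro h
    rw [mu_succ, mu_succ, ih (fun i hi => h i (by omega)), h m (by omega), h (m - p) (by omega)]

/-- The word `w 0, ..., w (m-1)` contains no block of length at least `lam * p` that coincides with
its copy at distance `p ≥ 1`. -/
def Good (lam : ℚ) (w : ℕ → S) (m : ℕ) : Prop :=
  ∀ p, 1 ≤ p → ∀ t, t ≤ m → (mu w p t : ℚ) < lam * p

lemma Good.mono {lam : ℚ} {w : ℕ → S} {m n : ℕ} (h : Good lam w m) (hn : n ≤ m) :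
    Good lam w n := fun p hp t ht => h p hp t (ht.trans hn)

lemma Good.congr {lam : ℚ} {w w' : ℕ → S} {m : ℕ} (h : Good lam w m)
    (hw : ∀ i, i < m → w i = w' i) : Good lam w' m := by
  intro p hp t ht
  rw [← mu_congr w w' p t (fun i hi => hw i (by omega))]
  exact h p hp t ht

/-- The excess `⌈lam * p⌉` of a minimal forbidden repetition of period `p`. -/
def ex (lam : ℚ) (p : ℕ) : ℕ := ⌈lam * p⌉₊

lemma lt_ex {lam : ℚ} {p r : ℕ} : r < ex lam p ↔ (r : ℚ) < lam * p := Nat.lt_ceil

lemma ex_lt {lam : ℚ} (hlam : 0 < lam) (p : ℕ) : (ex lam p : ℚ) < lam * p + 1 :=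
  Nat.ceil_lt_add_one (by positivity)

lemma le_ex {lam : ℚ} (p : ℕ) : lam * p ≤ ex lam p := Nat.le_ceil _

/-- Separation: a block that coincides with its copies at distances `p < p'` is short. -/
lemma separation {lam : ℚ} {w : ℕ → S} {m : ℕ} (h : Good lam w m) {p p' a b : ℕ}
    (hpp : p < p') (hpa : p' ≤ a) (hab : a ≤ b) (hbm : b ≤ m)
    (h1 : ∀ i, a ≤ i → i < b → w i = w (i - p)) (h2 : ∀ i, a ≤ i → i < b → w i = w (i - p')) :
    ((b - a : ℕ) : ℚ) < lam * ((p' - p : ℕ) : ℚ) := by
  have h3 : b - a ≤ mu w (p' - p) (b - p) := by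
    apply le_mu
    · omega
    · intro i hi
      have e1 : b - p - 1 - i = (b - 1 - i) - p := by omega
      have e2 : b - p - 1 - i - (p' - p) = (b - 1 - i) - p' := by omega
      rw [e2, e1, ← h1 (b - 1 - i) (by omega) (by omega), h2 (b - 1 - i) (by omega) (by omega)]
  have h4 := h (p' - p) (by omega) (b - p) (by omega)
  have h5 : ((b - a : ℕ) : ℚ) ≤ (mu w (p' - p) (b - p) : ℚ) := by exact_mod_cast h3
  linarith

/-- Letters at positions `m - p` with the same excess are distinct. -/
lemma letters_distinct {lam : ℚ} (hlam : 0 < lam) {w : ℕ → S} {m : ℕ} (h : Good lam w m)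
    {p p' : ℕ} (hp : 1 ≤ p) (hpp : p < p') (hpm : p' ≤ m) (he : ex lam p = ex lam p') :
    w (m - p) ≠ w (m - p') := by
  intro heq
  have h1 : 1 ≤ mu w (p' - p) (m - p + 1) := by
    apply le_mu
    · omega
    · intro i hi
      have hi0 : i = 0 := by omega
      subst hi0
      have e1 : m - p + 1 - 1 - 0 = m - p := by omega
      have e2 : m - p - (p' - p) = m - p' := by omega
      rw [e1, e2, heq]
  have h2 := h (p' - p) (by omega) (m - p + 1) (by omega)
  have h3 : (1 : ℚ) ≤ (mu w (p' - p) (m - p + 1) : ℚ) := by exact_mod_cast h1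
  have h4 := ex_lt hlam p
  have h5 := le_ex (lam := lam) p'
  rw [← he] at h5
  have h6 : ((p' - p : ℕ) : ℚ) = (p' : ℚ) - p := by
    rw [Nat.cast_sub hpp.le]
  rw [h6] at h2
  nlinarith

/-- The potential. -/
def pot (lam : ℚ) (w : ℕ → S) (m : ℕ) : ℚ :=
  ∑ j ∈ Finset.range m,
    if 2 ≤ ex lam (j + 1) ∧ 0 < mu w (j + 1) m then
      (1 / 4 : ℚ) ^ (ex lam (j + 1) - mu w (j + 1) m) else 0

lemma mu_update (w : ℕ → S) (m : ℕ) (c : S) (p : ℕ) (hp : 1 ≤ p) (hpm : p ≤ m) :
    mu (Function.update w m c) p (m + 1) = if c = w (m - p) then mu w p m + 1 else 0 := by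
  rw [mu_succ, Function.update_self, Function.update_of_ne (by omega),
    mu_congr (Function.update w m c) w p m
      (fun i hi => Function.update_of_ne (by omega) _ _)]
  simp [hpm]

lemma mu_self (w : ℕ → S) (m : ℕ) : mu w (m + 1) (m + 1) = 0 := by
  rw [mu_succ, if_neg (by omega)]

lemma pot_update (lam : ℚ) (w : ℕ → S) (m : ℕ) (c : S) :
    pot lam (Function.update w m c) (m + 1) =
      ∑ j ∈ Finset.range m,
        if c = w (m - (j + 1)) then
          (if 2 ≤ ex lam (j + 1) then (1 / 4 : ℚ) ^ (ex lam (j + 1) - (mu w (j + 1) m + 1))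
            else 0) else 0 := by
  unfold pot
  rw [Finset.sum_range_succ, mu_self]
  simp only [lt_irrefl, and_false, if_false, add_zero]
  apply Finset.sum_congr rfl
  intro j hj
  rw [Finset.mem_range] at hj
  rw [mu_update w m c (j + 1) (by omega) (by omega)]
  by_cases hc : c = w (m - (j + 1))
  · by_cases he : 2 ≤ ex lam (j + 1)
    · simp [hc, he]
    · simp [he]
  · simp [hc]

lemma sum_pot_update (lam : ℚ) (w : ℕ → S) (m : ℕ) (A : Finset S) :
    ∑ c ∈ A, pot lam (Function.update w m c) (m + 1) =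
      ∑ j ∈ Finset.range m,
        if w (m - (j + 1)) ∈ A then
          (if 2 ≤ ex lam (j + 1) then (1 / 4 : ℚ) ^ (ex lam (j + 1) - (mu w (j + 1) m + 1))
            else 0) else 0 := by
  simp only [pot_update]
  rw [Finset.sum_comm]
  apply Finset.sum_congr rfl
  intro j _
  rw [Finset.sum_ite_eq']

/-- Finite sums over fibres of bounded size. -/
lemma sum_comp_le {ι : Type*} (F : Finset ι) (g : ι → ℕ) (N : ℕ) (f : ℕ → ℚ)
    (hf : ∀ e, 0 ≤ f e) (hN : ∀ e, (F.filter (fun i => g i = e)).card ≤ N) :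
    ∑ i ∈ F, f (g i) ≤ N * ∑ e ∈ F.image g, f e := by
  classical
  rw [Finset.sum_comp, Finset.mul_sum]
  apply Finset.sum_le_sum
  intro e _
  rw [nsmul_eq_mul]
  exact mul_le_mul_of_nonneg_right (by exact_mod_cast hN e) (hf e)

lemma geom_quarter (T : Finset ℕ) (e₀ : ℕ) (hT : ∀ e ∈ T, e₀ ≤ e) :
    ∑ e ∈ T, (1 / 4 : ℚ) ^ e ≤ (4 / 3) * (1 / 4 : ℚ) ^ e₀ := by
  obtain ⟨N, hN⟩ : ∃ N, ∀ e ∈ T, e < N := ⟨T.sup id + 1, fun e he =>
    Nat.lt_succ_of_le (Finset.le_sup (f := id) he)⟩
  have h1 : ∑ e ∈ T, (1 / 4 : ℚ) ^ e ≤ ∑ e ∈ Finset.Ico e₀ (e₀ + N), (1 / 4 : ℚ) ^ e := by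
    apply Finset.sum_le_sum_of_subset_of_nonneg
    · intro e he
      rw [Finset.mem_Ico]
      exact ⟨hT e he, by have := hN e he; omega⟩
    · intro e _ _; positivity
  refine h1.trans ?_
  rw [Finset.sum_Ico_eq_sum_range]
  have h2 : e₀ + N - e₀ = N := by omega
  rw [h2]
  simp only [pow_add]
  rw [← Finset.mul_sum]
  have h3 : ∑ i ∈ Finset.range N, (1 / 4 : ℚ) ^ i ≤ 4 / 3 := by
    rw [geom_sum_eq (by norm_num)]
    have : (0 : ℚ) < (1 / 4) ^ N := by positivity
    have h5 : ((1 / 4 : ℚ) ^ N - 1) / (1 / 4 - 1) = (4 / 3) * (1 - (1 / 4) ^ N) := by ring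
    rw [h5]
    linarith
  have h4 : (0 : ℚ) < (1 / 4) ^ e₀ := by positivity
  nlinarith

lemma geom_half (T : Finset ℕ) (e₀ : ℕ) (hT : ∀ e ∈ T, e₀ ≤ e) :
    ∑ e ∈ T, (1 / 2 : ℚ) ^ e ≤ 2 * (1 / 2 : ℚ) ^ e₀ := by
  obtain ⟨N, hN⟩ : ∃ N, ∀ e ∈ T, e < N := ⟨T.sup id + 1, fun e he =>
    Nat.lt_succ_of_le (Finset.le_sup (f := id) he)⟩
  have h1 : ∑ e ∈ T, (1 / 2 : ℚ) ^ e ≤ ∑ e ∈ Finset.Ico e₀ (e₀ + N), (1 / 2 : ℚ) ^ e := by
    apply Finset.sum_le_sum_of_subset_of_nonneg
    · intro e he
      rw [Finset.mem_Ico]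
      exact ⟨hT e he, by have := hN e he; omega⟩
    · intro e _ _; positivity
  refine h1.trans ?_
  rw [Finset.sum_Ico_eq_sum_range]
  have h2 : e₀ + N - e₀ = N := by omega
  rw [h2]
  simp only [pow_add]
  rw [← Finset.mul_sum]
  have h3 : ∑ i ∈ Finset.range N, (1 / 2 : ℚ) ^ i ≤ 2 := by
    rw [geom_sum_eq (by norm_num)]
    have : (0 : ℚ) < (1 / 2) ^ N := by positivity
    have h5 : ((1 / 2 : ℚ) ^ N - 1) / (1 / 2 - 1) = 2 * (1 - (1 / 2) ^ N) := by ring
    rw [h5]
    linarith
  have h4 : (0 : ℚ) < (1 / 2) ^ e₀ := by positivity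
  nlinarith

/-- The contribution of freshly started blocks. -/
lemma fresh_sum_le {lam : ℚ} (hlam : 0 < lam) {w : ℕ → S} {m : ℕ} (h : Good lam w m)
    (A : Finset S) (F : Finset ℕ)
    (hF : ∀ j ∈ F, j < m ∧ w (m - (j + 1)) ∈ A ∧ 2 ≤ ex lam (j + 1)) :
    ∑ j ∈ F, (1 / 4 : ℚ) ^ (ex lam (j + 1)) ≤ (A.card : ℚ) / 12 := by
  classical
  have h1 := sum_comp_le F (fun j => ex lam (j + 1)) A.card (fun e => (1 / 4 : ℚ) ^ e)
    (fun e => by positivity) (by
      intro e
      apply Finset.card_le_card_of_injOn (fun j => w (m - (j + 1)))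
      · intro j hj
        rw [Finset.mem_coe, Finset.mem_filter] at hj
        exact (hF j hj.1).2.1
      · intro j hj j' hj' hjj
        rw [Finset.mem_coe, Finset.mem_filter] at hj hj'
        simp only at hjj
        rcases lt_trichotomy j j' with hlt | heq | hgt
        · exact absurd hjj (letters_distinct hlam h (by omega) (by omega)
            (by have := (hF j' hj'.1).1; omega) (hj.2.trans hj'.2.symm))
        · exact heq
        · exact absurd hjj.symm (letters_distinct hlam h (by omega) (by omega)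
            (by have := (hF j hj.1).1; omega) (hj'.2.trans hj.2.symm)))
  have h2 := geom_quarter (F.image (fun j => ex lam (j + 1))) 2 (by
    intro e he
    rw [Finset.mem_image] at he
    obtain ⟨j, hj, rfl⟩ := he
    exact (hF j hj).2.2)
  have h3 : (A.card : ℚ) * ∑ e ∈ F.image (fun j => ex lam (j + 1)), (1 / 4 : ℚ) ^ e ≤
      (A.card : ℚ) * ((4 / 3) * (1 / 4 : ℚ) ^ 2) :=
    mul_le_mul_of_nonneg_left h2 (by positivity)
  calc ∑ j ∈ F, (1 / 4 : ℚ) ^ (ex lam (j + 1)) ≤ _ := h1
    _ ≤ _ := h3
    _ = (A.card : ℚ) / 12 := by ring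

/-- A word stays good when a letter with small potential is appended. -/
lemma good_of_pot {lam : ℚ} (hlam : 0 < lam) {w : ℕ → S} {m : ℕ} (h : Good lam w m) (c : S)
    (hc : ∀ p, 1 ≤ p → p ≤ m → ex lam p ≤ 1 → w (m - p) ≠ c)
    (hpot : pot lam (Function.update w m c) (m + 1) < 1) :
    Good lam (Function.update w m c) (m + 1) := by
  intro p hp t ht
  rcases Nat.lt_or_ge t (m + 1) with ht' | ht'
  · exact (h.congr (w' := Function.update w m c)
      (fun i hi => (Function.update_of_ne (by omega) _ _).symm)) p hp t (by omega)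
  have htm : t = m + 1 := by omega
  subst htm
  have hpos : (0 : ℚ) < lam * p := by
    have : (0 : ℚ) < p := by exact_mod_cast hp
    positivity
  by_cases hmu : mu (Function.update w m c) p (m + 1) = 0
  · rw [hmu]; simpa using hpos
  have hmu' : 0 < mu (Function.update w m c) p (m + 1) := Nat.pos_of_ne_zero hmu
  have hpm : p ≤ m := by
    have := mu_add_le _ _ _ hmu'
    omega
  by_cases he : 2 ≤ ex lam p
  · rw [← lt_ex]
    by_contra hcon
    push Not at hcon
    have h1 : (1 : ℚ) ≤ pot lam (Function.update w m c) (m + 1) := by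
      unfold pot
      obtain ⟨j, rfl⟩ : ∃ j, p = j + 1 := ⟨p - 1, by omega⟩
      refine le_trans ?_ (Finset.single_le_sum (f := fun j =>
        if 2 ≤ ex lam (j + 1) ∧ 0 < mu (Function.update w m c) (j + 1) (m + 1) then
          (1 / 4 : ℚ) ^ (ex lam (j + 1) - mu (Function.update w m c) (j + 1) (m + 1)) else 0)
        ?_ (Finset.mem_range.mpr (show j < m + 1 by omega)))
      · simp only [he, hmu', and_self, if_true]
        rw [Nat.sub_eq_zero_of_le hcon, pow_zero]
      · intro i _
        split_ifs <;> positivity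
    linarith
  · exfalso
    rw [mu_update w m c p hp hpm] at hmu
    split_ifs at hmu with hcc
    · exact hc p hp hpm (by omega) hcc.symm
    · exact hmu rfl

/-- Greedy step. -/
lemma greedy_step {lam : ℚ} (hlam : 0 < lam) {w : ℕ → S} {m : ℕ} (h : Good lam w m)
    (hpot : pot lam w m < 1) (A : Finset S) (hA : 6 ≤ A.card)
    (hAq : ∀ c ∈ A, ∀ p, 1 ≤ p → p ≤ m → ex lam p ≤ 1 → w (m - p) ≠ c) :
    ∃ c ∈ A, Good lam (Function.update w m c) (m + 1) ∧
      pot lam (Function.update w m c) (m + 1) < 1 := by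
  classical
  by_contra hcon
  push Not at hcon
  have h1 : ∀ c ∈ A, (1 : ℚ) ≤ pot lam (Function.update w m c) (m + 1) := by
    intro c hc
    by_contra hlt
    push Not at hlt
    exact absurd hlt (not_lt.mpr (hcon c hc (good_of_pot hlam h c (hAq c hc) hlt)))
  have h2 : (A.card : ℚ) ≤ ∑ c ∈ A, pot lam (Function.update w m c) (m + 1) := by
    have := Finset.card_nsmul_le_sum A _ 1 h1
    simpa using this
  rw [sum_pot_update] at h2
  -- bound each summand
  have h3 : ∀ j ∈ Finset.range m,
      (if w (m - (j + 1)) ∈ A then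
          (if 2 ≤ ex lam (j + 1) then (1 / 4 : ℚ) ^ (ex lam (j + 1) - (mu w (j + 1) m + 1))
            else 0) else 0) ≤
      4 * (if 2 ≤ ex lam (j + 1) ∧ 0 < mu w (j + 1) m then
        (1 / 4 : ℚ) ^ (ex lam (j + 1) - mu w (j + 1) m) else 0) +
      4 * (if w (m - (j + 1)) ∈ A ∧ 2 ≤ ex lam (j + 1) then (1 / 4 : ℚ) ^ (ex lam (j + 1))
        else 0) := by
    intro j _
    have hmu : mu w (j + 1) m < ex lam (j + 1) := lt_ex.mpr (h (j + 1) (by omega) m le_rfl)
    by_cases hwA : w (m - (j + 1)) ∈ A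
    · by_cases he : 2 ≤ ex lam (j + 1)
      · by_cases hm0 : 0 < mu w (j + 1) m
        · simp only [hwA, he, hm0, and_self, if_true]
          have e1 : ex lam (j + 1) - mu w (j + 1) m =
              (ex lam (j + 1) - (mu w (j + 1) m + 1)) + 1 := by omega
          rw [e1, pow_succ]
          have : (0 : ℚ) ≤ (1 / 4) ^ (ex lam (j + 1)) := by positivity
          have : (0 : ℚ) ≤ (1 / 4) ^ (ex lam (j + 1) - (mu w (j + 1) m + 1)) := by positivity
          linarith
        · have hm1 : mu w (j + 1) m = 0 := by omega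
          simp only [hwA, he, hm1, lt_irrefl, and_true, and_false, if_true, if_false, zero_add,
            mul_zero]
          obtain ⟨e, he'⟩ : ∃ e, ex lam (j + 1) = e + 1 := ⟨ex lam (j + 1) - 1, by omega⟩
          rw [he', Nat.add_sub_cancel, pow_succ]
          linarith
      · simp [he]
    · simp only [hwA, if_false, false_and]
      split_ifs <;> positivity
  have h4 := h2.trans (Finset.sum_le_sum h3)
  rw [Finset.sum_add_distrib, ← Finset.mul_sum, ← Finset.mul_sum, ← Finset.sum_filter,
    ← Finset.sum_filter] at h4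
  have h5 := fresh_sum_le hlam h A
    ((Finset.range m).filter (fun j => w (m - (j + 1)) ∈ A ∧ 2 ≤ ex lam (j + 1))) (by
      intro j hj
      rw [Finset.mem_filter, Finset.mem_range] at hj
      exact hj)
  have h6 : (∑ j ∈ Finset.range m, if 2 ≤ ex lam (j + 1) ∧ 0 < mu w (j + 1) m then
        (1 / 4 : ℚ) ^ (ex lam (j + 1) - mu w (j + 1) m) else 0) < 1 := hpot
  rw [← Finset.sum_filter] at h6
  have h7 : (6 : ℚ) ≤ A.card := by exact_mod_cast hA
  linarith

lemma ex_le_one_iff {lam : ℚ} (hlam : 0 < lam) (p : ℕ) :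
    ex lam p ≤ 1 ↔ p ≤ ⌊1 / lam⌋₊ := by
  unfold ex
  rw [Nat.ceil_le, Nat.le_floor_iff (by positivity), le_div_iff₀ hlam]
  norm_num [mul_comm]

/-- Greedy extension by arbitrarily many letters of a set with at least `q + 6` elements. -/
lemma greedy_extend {lam : ℚ} (hlam : 0 < lam) (A₁ : Finset S) (hA₁ : ⌊1 / lam⌋₊ + 6 ≤ A₁.card)
    {w : ℕ → S} {m : ℕ} (h : Good lam w m) (hpot : pot lam w m < 1) (M : ℕ) :
    ∃ w' : ℕ → S, (∀ i, i < m → w' i = w i) ∧ Good lam w' (m + M) ∧ pot lam w' (m + M) < 1 ∧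
      ∀ i, m ≤ i → i < m + M → w' i ∈ A₁ := by
  classical
  induction M with
  | zero => exact ⟨w, fun _ _ => rfl, h, hpot, fun i h1 h2 => by omega⟩
  | succ M ih =>
    obtain ⟨w', h1, h2, h3, h4⟩ := ih
    set q := ⌊1 / lam⌋₊ with hq
    let B : Finset S := (Finset.Icc 1 q).image (fun p => w' (m + M - p))
    have hB : B.card ≤ q := by
      refine Finset.card_image_le.trans ?_
      simp
    have hcard : 6 ≤ (A₁ \ B).card := by
      have := Finset.le_card_sdiff B A₁
      omega
    obtain ⟨c, hc, h5, h6⟩ := greedy_step hlam h2 h3 (A₁ \ B) hcard (by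
      intro c hc p hp hpm hep heq
      rw [Finset.mem_sdiff] at hc
      apply hc.2
      rw [Finset.mem_image]
      exact ⟨p, Finset.mem_Icc.mpr ⟨hp, (ex_le_one_iff hlam p).mp hep⟩, heq⟩)
    refine ⟨Function.update w' (m + M) c, ?_, h5, h6, ?_⟩
    · intro i hi
      rw [Function.update_of_ne (by omega)]
      exact h1 i hi
    · intro i hi hi'
      by_cases heq : i = m + M
      · rw [heq, Function.update_self]
        exact (Finset.mem_sdiff.mp hc).1
      · rw [Function.update_of_ne heq]
        exact h4 i hi (by omega)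

/-! ### Counting near-repetitions along a good infinite word -/

/-- The set of pairs `(j, t)` such that the run of period `p = j + 1` ends with a mismatch at `t`,
the excess of `p` lies in `[4 * 2 ^ s, 8 * 2 ^ s)` and the run has length at least `2 * 2 ^ s`. -/
def heavy (lam : ℚ) (x : ℕ → S) (M s : ℕ) : Finset (ℕ × ℕ) :=
  ((Finset.range M) ×ˢ (Finset.range M)).filter (fun jt =>
    jt.1 < jt.2 ∧ 4 * 2 ^ s ≤ ex lam (jt.1 + 1) ∧ ex lam (jt.1 + 1) < 8 * 2 ^ s ∧
      2 * 2 ^ s ≤ mu x (jt.1 + 1) jt.2 ∧ x jt.2 ≠ x (jt.2 - (jt.1 + 1)))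

lemma card_heavy_le {lam : ℚ} (hlam : 0 < lam) {x : ℕ → S} {M : ℕ} (h : Good lam x M) (s : ℕ) :
    (heavy lam x M s).card ≤ 5 * (M / 2 ^ s + 1) := by
  classical
  have hw : 0 < 2 ^ s := by positivity
  have hwq : (0 : ℚ) < (2 : ℚ) ^ s := by positivity
  have key : ∀ j t j' t', (j, t) ∈ heavy lam x M s → (j', t') ∈ heavy lam x M s →
      t / 2 ^ s = t' / 2 ^ s → ⌊lam * (j + 1 : ℕ) / 2 ^ s⌋₊ = ⌊lam * (j' + 1 : ℕ) / 2 ^ s⌋₊ →
      t ≤ t' → (j, t) = (j', t') := by
    intro j t j' t' hjt hjt' ht hp htt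
    unfold heavy at hjt hjt'
    simp only [Finset.mem_filter, Finset.mem_product, Finset.mem_range] at hjt hjt'
    obtain ⟨⟨_, htM⟩, hj, _, _, hmu, hmis⟩ := hjt
    obtain ⟨⟨_, htM'⟩, hj', _, _, hmu', hmis'⟩ := hjt'
    -- `t' - t < 2 ^ s`
    have hd : t' < t + 2 ^ s := by
      have h1 := Nat.div_add_mod t (2 ^ s)
      have h2 := Nat.div_add_mod t' (2 ^ s)
      have h3 := Nat.mod_lt t' hw
      rw [← ht] at h2
      omega
    have hmle := mu_add_le x (j + 1) t (by omega)
    have hmle' := mu_add_le x (j' + 1) t' (by omega)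
    have hrun : ∀ i, t - 2 ^ s ≤ i → i < t → x i = x (i - (j + 1)) := by
      intro i hi hit
      have := mu_spec x (j + 1) t (t - 1 - i) (by omega)
      have e1 : t - 1 - (t - 1 - i) = i := by omega
      rw [e1] at this
      exact this.2
    have hrun' : ∀ i, t - 2 ^ s ≤ i → i < t' → x i = x (i - (j' + 1)) := by
      intro i hi hit
      have := mu_spec x (j' + 1) t' (t' - 1 - i) (by omega)
      have e1 : t' - 1 - (t' - 1 - i) = i := by omega
      rw [e1] at this
      exact this.2
    -- closeness of the two periods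
    have hclose : |lam * (j + 1 : ℕ) - lam * (j' + 1 : ℕ)| < 2 ^ s := by
      have a1 := Nat.floor_le (show (0 : ℚ) ≤ lam * (j + 1 : ℕ) / 2 ^ s by positivity)
      have a2 := Nat.lt_floor_add_one (lam * (j + 1 : ℕ) / 2 ^ s)
      have a3 := Nat.floor_le (show (0 : ℚ) ≤ lam * (j' + 1 : ℕ) / 2 ^ s by positivity)
      have a4 := Nat.lt_floor_add_one (lam * (j' + 1 : ℕ) / 2 ^ s)
      rw [hp] at a1 a2
      have b1 : |lam * (j + 1 : ℕ) / 2 ^ s - lam * (j' + 1 : ℕ) / 2 ^ s| < 1 := by
        rw [abs_lt]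
        constructor <;> linarith
      rw [← sub_div, abs_div, abs_of_pos hwq, div_lt_one hwq] at b1
      exact b1
    have hjj : j = j' := by
      rcases lt_trichotomy j j' with hlt | heq | hgt
      · exfalso
        have := separation (h.mono htM.le) (p := j + 1) (p' := j' + 1) (a := t - 2 ^ s) (b := t)
          (by omega) (by omega) (by omega) le_rfl hrun (fun i h1 h2 => hrun' i h1 (by omega))
        have e1 : t - (t - 2 ^ s) = 2 ^ s := by omega
        have e2 : ((j' + 1 - (j + 1) : ℕ) : ℚ) = ((j' + 1 : ℕ) : ℚ) - ((j + 1 : ℕ) : ℚ) := by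
          rw [Nat.cast_sub (by omega)]
        rw [e1, e2] at this
        rw [abs_lt] at hclose
        push_cast at this hclose
        linarith [hclose.1]
      · exact heq
      · exfalso
        have := separation (h.mono htM.le) (p := j' + 1) (p' := j + 1) (a := t - 2 ^ s) (b := t)
          (by omega) (by omega) (by omega) le_rfl (fun i h1 h2 => hrun' i h1 (by omega)) hrun
        have e1 : t - (t - 2 ^ s) = 2 ^ s := by omega
        have e2 : ((j + 1 - (j' + 1) : ℕ) : ℚ) = ((j + 1 : ℕ) : ℚ) - ((j' + 1 : ℕ) : ℚ) := by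
          rw [Nat.cast_sub (by omega)]
        rw [e1, e2] at this
        rw [abs_lt] at hclose
        push_cast at this hclose
        linarith [hclose.2]
    subst hjj
    have htt' : t = t' := by
      by_contra hne
      exact hmis (hrun' t (by omega) (by omega))
    rw [htt']
  have hcard : (heavy lam x M s).card ≤
      ((Finset.range (M / 2 ^ s + 1)) ×ˢ (Finset.Icc 3 7)).card := by
    apply Finset.card_le_card_of_injOn
      (fun jt => (jt.2 / 2 ^ s, ⌊lam * (jt.1 + 1 : ℕ) / 2 ^ s⌋₊))
    · rintro ⟨j, t⟩ hjt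
      have hjt' := hjt
      rw [Finset.mem_coe] at hjt
      unfold heavy at hjt
      simp only [Finset.mem_filter, Finset.mem_product, Finset.mem_range] at hjt
      obtain ⟨⟨_, htM⟩, hj, he1, he2, hmu, hmis⟩ := hjt
      simp only [Finset.coe_product, Set.mem_prod, Finset.mem_coe, Finset.mem_range,
        Finset.mem_Icc]
      refine ⟨Nat.lt_succ_of_le (Nat.div_le_div_right htM.le), ?_, ?_⟩
      · rw [Nat.le_floor_iff (by positivity), le_div_iff₀ hwq]
        have h1 := ex_lt hlam (j + 1)
        have h2 : (4 * 2 ^ s : ℚ) ≤ ex lam (j + 1) := by exact_mod_cast he1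
        have h3 : (1 : ℚ) ≤ 2 ^ s := one_le_pow₀ (by norm_num)
        push_cast at h1 ⊢
        linarith
      · have : ⌊lam * (j + 1 : ℕ) / 2 ^ s⌋₊ < 8 := by
          rw [Nat.floor_lt (by positivity), div_lt_iff₀ hwq]
          have h1 := le_ex (lam := lam) (j + 1)
          have h2 : (ex lam (j + 1) : ℚ) < 8 * 2 ^ s := by exact_mod_cast he2
          push_cast at h1 ⊢
          linarith
        omega
    · rintro ⟨j, t⟩ hjt ⟨j', t'⟩ hjt' heq
      simp only [Prod.mk.injEq] at heq
      rcases le_total t t' with htt | htt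
      · exact key j t j' t' hjt hjt' heq.1 heq.2 htt
      · exact (key j' t' j t hjt' hjt heq.1.symm heq.2.symm htt).symm
  refine hcard.trans ?_
  rw [Finset.card_product, Finset.card_range]
  simp [mul_comm]

/-- At most one period of given excess has a nonempty run ending at `t`. -/
lemma unique_run {lam : ℚ} (hlam : 0 < lam) {x : ℕ → S} {t : ℕ} (h : Good lam x t) {j j' : ℕ}
    (hj : 0 < mu x (j + 1) t) (hj' : 0 < mu x (j' + 1) t)
    (he : ex lam (j + 1) = ex lam (j' + 1)) : j = j' := by
  have a1 := mu_add_le x (j + 1) t hj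
  have a2 := mu_add_le x (j' + 1) t hj'
  have b1 := mu_spec x (j + 1) t 0 hj
  have b2 := mu_spec x (j' + 1) t 0 hj'
  have e1 : t - 1 - 0 = t - 1 := by omega
  rw [e1] at b1 b2
  rcases lt_trichotomy j j' with hlt | heq | hgt
  · exact absurd (b1.2.symm.trans b2.2) (letters_distinct hlam (h.mono (by omega : t - 1 ≤ t))
      (by omega) (by omega) (by omega) he)
  · exact heq
  · exact absurd (b2.2.symm.trans b1.2) (letters_distinct hlam (h.mono (by omega : t - 1 ≤ t))
      (by omega) (by omega) (by omega) he.symm)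

/-- Total weight of the runs that end at `t`. -/
def gsum (lam : ℚ) (x : ℕ → S) (t : ℕ) : ℚ :=
  ∑ j ∈ (Finset.range t).filter (fun j => 2 ≤ ex lam (j + 1) ∧ 0 < mu x (j + 1) t ∧
    x t ≠ x (t - (j + 1))), (1 / 4 : ℚ) ^ (ex lam (j + 1) - (mu x (j + 1) t + 1))

lemma ex_mono {lam : ℚ} (hlam : 0 < lam) {p p' : ℕ} (h : p ≤ p') : ex lam p ≤ ex lam p' := by
  apply Nat.ceil_mono
  have : (p : ℚ) ≤ p' := by exact_mod_cast h
  nlinarith

lemma gsum_le {lam : ℚ} (hlam : 0 < lam) {x : ℕ → S} {M : ℕ} (h : Good lam x M) (J : ℕ)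
    (hJ : ex lam M < 4 * 2 ^ J) {t : ℕ} (ht : t < M) :
    gsum lam x t ≤ 17 / 8 + ∑ s ∈ Finset.range J,
      (((Finset.range M).filter (fun j => (j, t) ∈ heavy lam x M s)).card : ℚ) := by
  classical
  unfold gsum
  set F := (Finset.range t).filter (fun j => 2 ≤ ex lam (j + 1) ∧ 0 < mu x (j + 1) t ∧
    x t ≠ x (t - (j + 1))) with hF
  have hgt : Good lam x t := h.mono ht.le
  have hFm : ∀ j ∈ F, j < t ∧ 2 ≤ ex lam (j + 1) ∧ 0 < mu x (j + 1) t ∧
      x t ≠ x (t - (j + 1)) := by
    intro j hj
    rw [hF, Finset.mem_filter, Finset.mem_range] at hj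
    exact hj
  -- classify
  let Hv : ℕ → Prop := fun j => ∃ s ∈ Finset.range J, (j, t) ∈ heavy lam x M s
  have hterm : ∀ j ∈ F, (1 / 4 : ℚ) ^ (ex lam (j + 1) - (mu x (j + 1) t + 1)) ≤
      (if ex lam (j + 1) < 4 then 1 else 0) + (if 4 ≤ ex lam (j + 1) then
        (1 / 2 : ℚ) ^ ex lam (j + 1) else 0) + (if Hv j then 1 else 0) := by
    intro j hj
    obtain ⟨hjt, he2, hmu0, hmis⟩ := hFm j hj
    have hone : (1 / 4 : ℚ) ^ (ex lam (j + 1) - (mu x (j + 1) t + 1)) ≤ 1 :=
      pow_le_one₀ (by norm_num) (by norm_num)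
    by_cases he4 : ex lam (j + 1) < 4
    · have h4 : ¬ 4 ≤ ex lam (j + 1) := by omega
      simp only [he4, h4, if_true, if_false, add_zero]
      split_ifs <;> linarith
    · have h4 : 4 ≤ ex lam (j + 1) := by omega
      simp only [he4, h4, if_true, if_false, zero_add]
      -- the dyadic scale
      obtain ⟨s, hs1, hs2⟩ : ∃ s, 4 * 2 ^ s ≤ ex lam (j + 1) ∧ ex lam (j + 1) < 8 * 2 ^ s := by
        refine ⟨Nat.log 2 (ex lam (j + 1)) - 2, ?_, ?_⟩
        · have h5 : 2 ≤ Nat.log 2 (ex lam (j + 1)) := by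
            apply Nat.le_log_of_pow_le (by norm_num)
            norm_num
            exact h4
          have h6 := Nat.pow_log_le_self 2 (show ex lam (j + 1) ≠ 0 by omega)
          calc 4 * 2 ^ (Nat.log 2 (ex lam (j + 1)) - 2)
              = 2 ^ (Nat.log 2 (ex lam (j + 1)) - 2 + 2) := by rw [pow_add]; ring
            _ = 2 ^ (Nat.log 2 (ex lam (j + 1))) := by congr 1; omega
            _ ≤ _ := h6
        · have h5 : 2 ≤ Nat.log 2 (ex lam (j + 1)) := by
            apply Nat.le_log_of_pow_le (by norm_num)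
            norm_num
            exact h4
          have h6 := Nat.lt_pow_succ_log_self (b := 2) (by norm_num) (ex lam (j + 1))
          calc ex lam (j + 1) < 2 ^ (Nat.log 2 (ex lam (j + 1))).succ := h6
            _ = 2 ^ (Nat.log 2 (ex lam (j + 1)) - 2 + 3) := by congr 1; omega
            _ = 8 * 2 ^ (Nat.log 2 (ex lam (j + 1)) - 2) := by rw [pow_add]; ring
      by_cases hbig : 2 * 2 ^ s ≤ mu x (j + 1) t
      · have hsJ : s < J := by
          have h5 : ex lam (j + 1) ≤ ex lam M := ex_mono hlam (by omega)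
          have h6 : 4 * 2 ^ s < 4 * 2 ^ J := by omega
          have h7 : (2 : ℕ) ^ s < 2 ^ J := by omega
          exact (Nat.pow_lt_pow_iff_right (by norm_num)).mp h7
        have hHv : Hv j := by
          refine ⟨s, Finset.mem_range.mpr hsJ, ?_⟩
          unfold heavy
          simp only [Finset.mem_filter, Finset.mem_product, Finset.mem_range]
          exact ⟨⟨by omega, ht⟩, hjt, hs1, hs2, hbig, hmis⟩
        simp only [hHv, if_true]
        have : (0 : ℚ) ≤ (1 / 2) ^ ex lam (j + 1) := by positivity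
        linarith
      · have h8 : (1 / 4 : ℚ) ^ (ex lam (j + 1) - (mu x (j + 1) t + 1)) ≤
            (1 / 2 : ℚ) ^ ex lam (j + 1) := by
          have e1 : (1 / 4 : ℚ) = (1 / 2) ^ 2 := by norm_num
          rw [e1, ← pow_mul]
          apply pow_le_pow_of_le_one (by norm_num) (by norm_num)
          omega
        have : (0 : ℚ) ≤ if Hv j then 1 else 0 := by split_ifs <;> norm_num
        linarith
  refine (Finset.sum_le_sum hterm).trans ?_
  rw [Finset.sum_add_distrib, Finset.sum_add_distrib]
  -- injectivity of the excess on `F`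
  have hinj : ∀ (e : ℕ), (F.filter (fun j => ex lam (j + 1) = e)).card ≤ 1 := by
    intro e
    rw [Finset.card_le_one]
    intro a ha b hb
    rw [Finset.mem_filter] at ha hb
    exact unique_run hlam hgt (hFm a ha.1).2.2.1 (hFm b hb.1).2.2.1 (ha.2.trans hb.2.symm)
  have hS1 : ∑ j ∈ F, (if ex lam (j + 1) < 4 then (1 : ℚ) else 0) ≤ 2 := by
    rw [← Finset.sum_filter]
    have h9 : (F.filter (fun j => ex lam (j + 1) < 4)).card ≤ 2 := by
      have h10 : (F.filter (fun j => ex lam (j + 1) < 4)).card ≤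
          ({2, 3} : Finset ℕ).card := by
        apply Finset.card_le_card_of_injOn (fun j => ex lam (j + 1))
        · intro j hj
          rw [Finset.mem_coe, Finset.mem_filter] at hj
          have := (hFm j hj.1).2.1
          have := hj.2
          simp only [Finset.coe_insert, Finset.coe_singleton, Set.mem_insert_iff,
            Set.mem_singleton_iff]
          omega
        · intro a ha b hb hab
          rw [Finset.mem_coe, Finset.mem_filter] at ha hb
          exact unique_run hlam hgt (hFm a ha.1).2.2.1 (hFm b hb.1).2.2.1 hab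
      simpa using h10
    rw [Finset.sum_const, nsmul_eq_mul, mul_one]
    exact_mod_cast h9
  have hS2 : ∑ j ∈ F, (if 4 ≤ ex lam (j + 1) then (1 / 2 : ℚ) ^ ex lam (j + 1) else 0)
      ≤ 1 / 8 := by
    rw [← Finset.sum_filter]
    have h9 := sum_comp_le (F.filter (fun j => 4 ≤ ex lam (j + 1)))
      (fun j => ex lam (j + 1)) 1 (fun e => (1 / 2 : ℚ) ^ e) (fun e => by positivity) (by
        intro e
        refine le_trans (Finset.card_le_card ?_) (hinj e)
        intro j hj
        rw [Finset.mem_filter, Finset.mem_filter] at hj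
        rw [Finset.mem_filter]
        exact ⟨hj.1.1, hj.2⟩)
    have h10 := geom_half ((F.filter (fun j => 4 ≤ ex lam (j + 1))).image
      (fun j => ex lam (j + 1))) 4 (by
        intro e he
        rw [Finset.mem_image] at he
        obtain ⟨j, hj, rfl⟩ := he
        rw [Finset.mem_filter] at hj
        exact hj.2)
    norm_num at h9 h10 ⊢
    linarith
  have hS3 : ∑ j ∈ F, (if Hv j then (1 : ℚ) else 0) ≤ ∑ s ∈ Finset.range J,
      (((Finset.range M).filter (fun j => (j, t) ∈ heavy lam x M s)).card : ℚ) := by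
    rw [← Finset.sum_filter, Finset.sum_const, nsmul_eq_mul, mul_one]
    have h11 : (F.filter Hv).card ≤ ∑ s ∈ Finset.range J,
        ((Finset.range M).filter (fun j => (j, t) ∈ heavy lam x M s)).card := by
      refine le_trans (Finset.card_le_card ?_) Finset.card_biUnion_le
      intro j hj
      rw [Finset.mem_filter] at hj
      obtain ⟨hjF, s, hs, hjs⟩ := hj
      rw [Finset.mem_biUnion]
      refine ⟨s, hs, ?_⟩
      rw [Finset.mem_filter, Finset.mem_range]
      have := (hFm j hjF).1
      exact ⟨by omega, hjs⟩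
    exact_mod_cast h11
  linarith

lemma sum_gsum_le {lam : ℚ} (hlam : 0 < lam) {x : ℕ → S} {M : ℕ} (h : Good lam x M) (J : ℕ)
    (hJ : ex lam M < 4 * 2 ^ J) :
    ∑ t ∈ Finset.range M, gsum lam x t ≤ (97 / 8) * M + 5 * J := by
  classical
  have h1 : ∑ t ∈ Finset.range M, gsum lam x t ≤ ∑ t ∈ Finset.range M,
      ((17 / 8 : ℚ) + ∑ s ∈ Finset.range J,
        (((Finset.range M).filter (fun j => (j, t) ∈ heavy lam x M s)).card : ℚ)) :=
    Finset.sum_le_sum (fun t ht => gsum_le hlam h J hJ (Finset.mem_range.mp ht))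
  refine h1.trans ?_
  rw [Finset.sum_add_distrib, Finset.sum_const, Finset.card_range, nsmul_eq_mul,
    Finset.sum_comm]
  have h2 : ∀ s ∈ Finset.range J, ∑ t ∈ Finset.range M,
      (((Finset.range M).filter (fun j => (j, t) ∈ heavy lam x M s)).card : ℚ) ≤
      5 * ((M : ℚ) * (1 / 2) ^ s + 1) := by
    intro s _
    have h3 : ∑ t ∈ Finset.range M,
        ((Finset.range M).filter (fun j => (j, t) ∈ heavy lam x M s)).card =
        (heavy lam x M s).card := by
      have h4 : (heavy lam x M s) = ((Finset.range M).sigma (fun t =>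
          (Finset.range M).filter (fun j => (j, t) ∈ heavy lam x M s))).image
            (fun tj => (tj.2, tj.1)) := by
        ext ⟨j, t⟩
        simp only [Finset.mem_image, Finset.mem_sigma, Finset.mem_range, Finset.mem_filter,
          Prod.mk.injEq]
        constructor
        · intro hjt
          refine ⟨⟨t, j⟩, ?_, rfl, rfl⟩
          have hjt' := hjt
          unfold heavy at hjt'
          simp only [Finset.mem_filter, Finset.mem_product, Finset.mem_range] at hjt'
          exact ⟨hjt'.1.2, hjt'.1.1, hjt⟩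
        · rintro ⟨⟨t', j'⟩, ⟨_, _, h5⟩, rfl, rfl⟩
          exact h5
      conv_rhs => rw [h4]
      rw [Finset.card_image_of_injective, Finset.card_sigma]
      rintro ⟨t, j⟩ ⟨t', j'⟩ heq
      simp only [Prod.mk.injEq] at heq
      obtain ⟨rfl, rfl⟩ := heq
      rfl
    have h6 := card_heavy_le hlam h s
    have h7 : (((heavy lam x M s).card : ℕ) : ℚ) ≤ 5 * ((M : ℚ) * (1 / 2) ^ s + 1) := by
      have h8 : (((heavy lam x M s).card : ℕ) : ℚ) ≤ ((5 * (M / 2 ^ s + 1) : ℕ) : ℚ) := by
        exact_mod_cast h6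
      refine h8.trans ?_
      push_cast
      have h9 : ((M / 2 ^ s : ℕ) : ℚ) ≤ (M : ℚ) / (2 : ℚ) ^ s := by
        have := @Nat.cast_div_le ℚ _ _ _ M (2 ^ s)
        simpa using this
      have h10 : (M : ℚ) * (1 / 2) ^ s = (M : ℚ) / 2 ^ s := by
        rw [one_div, inv_pow]; rfl
      rw [h10]
      linarith
    rw [← h3] at h7
    exact_mod_cast h7
  have h3 := Finset.sum_le_sum h2
  have h4 : ∑ s ∈ Finset.range J, 5 * ((M : ℚ) * (1 / 2) ^ s + 1) ≤ 10 * M + 5 * J := by
    have h5 : ∑ s ∈ Finset.range J, 5 * ((M : ℚ) * (1 / 2) ^ s + 1) =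
        5 * (M : ℚ) * (∑ s ∈ Finset.range J, (1 / 2 : ℚ) ^ s) + 5 * J := by
      rw [Finset.mul_sum]
      have : ∀ s ∈ Finset.range J, 5 * ((M : ℚ) * (1 / 2) ^ s + 1) =
          5 * (M : ℚ) * (1 / 2) ^ s + 5 := by
        intro s _; ring
      rw [Finset.sum_congr rfl this, Finset.sum_add_distrib]
      simp [mul_comm]
    rw [h5]
    have h6 := geom_half (Finset.range J) 0 (fun e _ => Nat.zero_le e)
    rw [pow_zero, mul_one] at h6
    have h7 : (0 : ℚ) ≤ 5 * M := by positivity
    nlinarith
  linarith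

/-- Starting point: along a long good word there is a position where one can branch off and
get a small potential. -/
lemma exists_start (S : Type*) [DecidableEq S] [Fintype S] {lam : ℚ} (hlam : 0 < lam)
    (hcard : ⌊1 / lam⌋₊ + 20 ≤ Fintype.card S) (m₀ : ℕ) :
    ∃ M : ℕ, ∀ x : ℕ → S, Good lam x M →
    ∃ t, m₀ ≤ t ∧ t < M ∧ ∃ c, Good lam (Function.update x t c) (t + 1) ∧
      pot lam (Function.update x t c) (t + 1) < 1 := by
  classical
  -- choose the length
  obtain ⟨L, hL⟩ : ∃ L : ℕ, lam + 1 ≤ (2 : ℚ) ^ L := by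
    obtain ⟨L, hL⟩ := exists_nat_ge (lam + 1)
    refine ⟨L, hL.trans ?_⟩
    have := (Nat.lt_two_pow_self (n := L)).le
    exact_mod_cast this
  obtain ⟨N, hN⟩ : ∃ N : ℕ, N = 26 * m₀ + 10 * L + 21 := ⟨_, rfl⟩
  obtain ⟨K, hK⟩ : ∃ K : ℕ, K = 2 * N := ⟨_, rfl⟩
  refine ⟨2 ^ K, fun x hxM => ?_⟩
  by_contra hcon
  push Not at hcon
  set q := ⌊1 / lam⌋₊ with hq
  -- lower bound on `gsum`
  have hlow : ∀ t, m₀ ≤ t → t < 2 ^ K → (38 / 3 : ℚ) ≤ gsum lam x t := by
    intro t ht htK
    have hxt' : Good lam x t := hxM.mono htK.le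
    let B : Finset S := insert (x t) ((Finset.Icc 1 q).image (fun p => x (t - p)))
    have hB : B.card ≤ q + 1 := by
      refine (Finset.card_insert_le _ _).trans ?_
      have := Finset.card_image_le (s := Finset.Icc 1 q) (f := fun p => x (t - p))
      simp at this
      omega
    let A : Finset S := Finset.univ \ B
    have hA : 19 ≤ A.card := by
      have h1 : Fintype.card S - B.card ≤ A.card := by
        have := Finset.le_card_sdiff B (Finset.univ : Finset S)
        rwa [Finset.card_univ] at this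
      omega
    have hAc : ∀ c ∈ A, (1 : ℚ) ≤ pot lam (Function.update x t c) (t + 1) := by
      intro c hc
      by_contra hlt
      push Not at hlt
      refine absurd hlt (not_lt.mpr (hcon t ht htK c (good_of_pot hlam hxt' c ?_ hlt)))
      intro p hp hpm hep heq
      rw [Finset.mem_sdiff] at hc
      apply hc.2
      rw [Finset.mem_insert, Finset.mem_image]
      exact Or.inr ⟨p, Finset.mem_Icc.mpr ⟨hp, (ex_le_one_iff hlam p).mp hep⟩, heq⟩
    have h2 : (A.card : ℚ) ≤ ∑ c ∈ A, pot lam (Function.update x t c) (t + 1) := by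
      have := Finset.card_nsmul_le_sum A _ 1 hAc
      simpa using this
    rw [sum_pot_update] at h2
    have hxt : x t ∉ A := by
      rw [Finset.mem_sdiff]
      intro h; exact h.2 (Finset.mem_insert_self _ _)
    have h3 : ∀ j ∈ Finset.range t,
        (if x (t - (j + 1)) ∈ A then
            (if 2 ≤ ex lam (j + 1) then (1 / 4 : ℚ) ^ (ex lam (j + 1) - (mu x (j + 1) t + 1))
              else 0) else 0) ≤
        (if 2 ≤ ex lam (j + 1) ∧ 0 < mu x (j + 1) t ∧ x t ≠ x (t - (j + 1)) then
          (1 / 4 : ℚ) ^ (ex lam (j + 1) - (mu x (j + 1) t + 1)) else 0) +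
        4 * (if x (t - (j + 1)) ∈ A ∧ 2 ≤ ex lam (j + 1) then (1 / 4 : ℚ) ^ (ex lam (j + 1))
          else 0) := by
      intro j _
      by_cases hwA : x (t - (j + 1)) ∈ A
      · have hne : x t ≠ x (t - (j + 1)) := by
          intro h; rw [← h] at hwA; exact hxt hwA
        by_cases he : 2 ≤ ex lam (j + 1)
        · by_cases hm0 : 0 < mu x (j + 1) t
          · simp only [hwA, he, hm0, hne, ne_eq, not_false_eq_true, and_self, if_true]
            have : (0 : ℚ) ≤ (1 / 4) ^ (ex lam (j + 1)) := by positivity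
            linarith
          · have hm1 : mu x (j + 1) t = 0 := by omega
            simp only [hwA, he, hm1, lt_irrefl, and_true, and_false, false_and, if_true,
              if_false, zero_add]
            obtain ⟨e, he'⟩ : ∃ e, ex lam (j + 1) = e + 1 := ⟨ex lam (j + 1) - 1, by omega⟩
            rw [he', Nat.add_sub_cancel, pow_succ]
            linarith
        · simp [he]
      · simp only [hwA, if_false, false_and]
        split_ifs <;> positivity
    have h4 := h2.trans (Finset.sum_le_sum h3)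
    rw [Finset.sum_add_distrib, ← Finset.mul_sum, ← Finset.sum_filter,
      ← Finset.sum_filter] at h4
    have h5 := fresh_sum_le hlam hxt' A
      ((Finset.range t).filter (fun j => x (t - (j + 1)) ∈ A ∧ 2 ≤ ex lam (j + 1))) (by
        intro j hj
        rw [Finset.mem_filter, Finset.mem_range] at hj
        exact hj)
    have h6 : (19 : ℚ) ≤ A.card := by exact_mod_cast hA
    unfold gsum
    linarith
  have hJ : ex lam (2 ^ K) < 4 * 2 ^ (L + K) := by
    have h1 := ex_lt hlam (2 ^ K)
    have h2 : (1 : ℚ) ≤ 2 ^ K := one_le_pow₀ (by norm_num)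
    have h3 : lam * (2 ^ K) + 1 ≤ (lam + 1) * 2 ^ K := by nlinarith
    have h4 : (lam + 1) * 2 ^ K ≤ (2 : ℚ) ^ L * 2 ^ K :=
      mul_le_mul_of_nonneg_right hL (by positivity)
    have h5 : (ex lam (2 ^ K) : ℚ) < 4 * 2 ^ (L + K) := by
      rw [pow_add]
      push_cast at h1
      have : (0 : ℚ) < 2 ^ L * 2 ^ K := by positivity
      linarith
    exact_mod_cast h5
  have hup := sum_gsum_le hlam hxM (L + K) hJ
  have hsub : Finset.Ico m₀ (2 ^ K) ⊆ Finset.range (2 ^ K) := by
    intro t ht
    rw [Finset.mem_Ico] at ht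
    exact Finset.mem_range.mpr ht.2
  have hlow2 : ((2 ^ K - m₀ : ℕ) : ℚ) * (38 / 3) ≤ ∑ t ∈ Finset.range (2 ^ K),
      gsum lam x t := by
    have h1 : ((2 ^ K - m₀ : ℕ) : ℚ) * (38 / 3) ≤ ∑ t ∈ Finset.Ico m₀ (2 ^ K),
        gsum lam x t := by
      have := Finset.card_nsmul_le_sum (Finset.Ico m₀ (2 ^ K)) (gsum lam x) (38 / 3)
        (fun t ht => hlow t (Finset.mem_Ico.mp ht).1 (Finset.mem_Ico.mp ht).2)
      rw [Nat.card_Ico, nsmul_eq_mul] at this
      exact this
    refine h1.trans (Finset.sum_le_sum_of_subset_of_nonneg hsub ?_)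
    intro t _ _
    unfold gsum
    exact Finset.sum_nonneg (fun j _ => by positivity)
  have h7 : (2 : ℚ) ^ K - m₀ ≤ ((2 ^ K - m₀ : ℕ) : ℚ) := by
    have : (2 ^ K : ℕ) ≤ (2 ^ K - m₀) + m₀ := by omega
    have h8 : ((2 ^ K : ℕ) : ℚ) ≤ ((2 ^ K - m₀ : ℕ) : ℚ) + m₀ := by exact_mod_cast this
    push_cast at h8 ⊢
    linarith
  push_cast at hup
  have h9 : (2 : ℚ) ^ K ≤ 26 * m₀ + 10 * L + 10 * K := by
    have : (0 : ℚ) < 2 ^ K := by positivity
    have hm : (0 : ℚ) ≤ m₀ := by positivity
    have hLn : (0 : ℚ) ≤ L := by positivity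
    nlinarith
  have h10 : 2 ^ K ≤ 26 * m₀ + 10 * L + 10 * K := by exact_mod_cast h9
  have h11 : N < 2 ^ N := Nat.lt_two_pow_self
  have h12 : 2 ^ K = 2 ^ N * 2 ^ N := by
    rw [← pow_add]; congr 1; omega
  have h13 : N * N < 2 ^ N * 2 ^ N := Nat.mul_lt_mul_of_lt_of_le h11 h11.le (by omega)
  have h14 : (26 * m₀ + 10 * L) + 20 * N ≤ N * N := by
    have h15 : 1 ≤ N := by omega
    have h16 : N * N = N * (26 * m₀ + 10 * L) + 21 * N := by
      conv_lhs => rw [show N * N = N * N from rfl]
      nth_rewrite 2 [hN]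
      ring
    rw [h16]
    have h17 : 26 * m₀ + 10 * L ≤ N * (26 * m₀ + 10 * L) := Nat.le_mul_of_pos_left _ h15
    omega
  rw [h12] at h10
  rw [hK] at h10
  generalize 2 ^ N * 2 ^ N = Z at *
  generalize N * N = Y at *
  omega

/-! ### Lists -/

/-- No forbidden repetition, in positional form. -/
def NB (lam : ℚ) (z : List S) : Prop :=
  ∀ i p r : ℕ, 1 ≤ p → lam * p ≤ r → i + p + r ≤ z.length →
    ∃ j, j < r ∧ z[i + j]? ≠ z[i + j + p]?

/-- `α`-power-freeness, as in the problem. -/
def PF (α : ℚ) (z : List S) : Prop :=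
  ∀ y : List S, List.IsInfix y z → y ≠ [] →
    ∀ p : ℕ, 0 < p → (∀ i : ℕ, i + p < y.length → y[i]? = y[i + p]?) →
      (y.length : ℚ) / (p : ℚ) < α

omit [DecidableEq S] in
lemma PF_iff_NB {α : ℚ} (hα : 1 < α) (z : List S) : PF α z ↔ NB (α - 1) z := by
  constructor
  · intro h i p r hp hr hlen
    by_contra hcon
    push Not at hcon
    have hp0 : (0 : ℚ) < p := by exact_mod_cast hp
    let y := (z.drop i).take (p + r)
    have hy : y.length = p + r := by
      simp only [y, List.length_take, List.length_drop]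
      omega
    have hy' : ∀ k, k < p + r → y[k]? = z[i + k]? := by
      intro k hk
      simp only [y]
      rw [List.getElem?_take_of_lt hk, List.getElem?_drop]
    have hinf : List.IsInfix y z :=
      (List.take_prefix _ _).isInfix.trans (List.drop_suffix _ _).isInfix
    have h1 := h y hinf (by
      intro h0; rw [h0] at hy; simp at hy; omega) p (by omega) (by
      intro k hk
      rw [hy] at hk
      rw [hy' k (by omega), hy' (k + p) (by omega)]
      have := hcon k (by omega)
      rw [this]; congr 1; omega)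
    rw [hy, div_lt_iff₀ hp0] at h1
    push_cast at h1
    linarith
  · intro h y hy hne p hp hper
    by_contra hcon
    push Not at hcon
    have hp0 : (0 : ℚ) < p := by exact_mod_cast hp
    rw [le_div_iff₀ hp0] at hcon
    obtain ⟨s, t, rfl⟩ := hy
    have hyp : p < y.length := by
      have : (p : ℚ) < y.length := by nlinarith
      exact_mod_cast this
    obtain ⟨j, hj, hne'⟩ := h s.length p (y.length - p) hp (by
      rw [Nat.cast_sub hyp.le]; linarith) (by simp; omega)
    apply hne'
    have h1 : ∀ k, k < y.length → (s ++ y ++ t)[s.length + k]? = y[k]? := by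
      intro k hk
      rw [List.append_assoc, List.getElem?_append_right (by omega)]
      have : s.length + k - s.length = k := by omega
      rw [this, List.getElem?_append_left hk]
    rw [h1 j (by omega), add_assoc, h1 (j + p) (by omega)]
    exact hper j (by omega)

lemma NB_iff_good {lam : ℚ} (hlam : 0 < lam) (z : List S) (d : S) :
    NB lam z ↔ Good lam (fun i => z.getD i d) z.length := by
  have hget : ∀ a b, a < z.length → b < z.length →
      (z.getD a d = z.getD b d ↔ z[a]? = z[b]?) := by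
    intro a b ha hb
    rw [List.getD_eq_getElem?_getD, List.getD_eq_getElem?_getD,
      List.getElem?_eq_getElem ha, List.getElem?_eq_getElem hb]
    simp
  constructor
  · intro h p hp t ht
    by_contra hcon
    push Not at hcon
    have hp0 : (0 : ℚ) < p := by exact_mod_cast hp
    have hmu0 : 0 < mu (fun i => z.getD i d) p t := by
      by_contra h0
      have h1 : mu (fun i => z.getD i d) p t = 0 := by omega
      rw [h1] at hcon
      have : 0 < lam * p := by positivity
      push_cast at hcon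
      linarith
    have h2 := mu_add_le _ p t hmu0
    obtain ⟨j, hj, hne⟩ := h (t - p - mu (fun i => z.getD i d) p t) p
      (mu (fun i => z.getD i d) p t) hp hcon (by omega)
    apply hne
    have h3 := mu_spec (fun i => z.getD i d) p t
      (mu (fun i => z.getD i d) p t - 1 - j) (by omega)
    rw [← hget _ _ (by omega) (by omega)]
    have e1 : t - 1 - (mu (fun i => z.getD i d) p t - 1 - j) =
        t - p - mu (fun i => z.getD i d) p t + j + p := by omega
    have e2 : t - 1 - (mu (fun i => z.getD i d) p t - 1 - j) - p =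
        t - p - mu (fun i => z.getD i d) p t + j := by omega
    rw [e2, e1] at h3
    exact h3.2.symm
  · intro h i p r hp hr hlen
    by_contra hcon
    push Not at hcon
    have h1 : r ≤ mu (fun i => z.getD i d) p (i + p + r) := by
      apply le_mu
      · omega
      · intro k hk
        have h2 := hcon (r - 1 - k) (by omega)
        rw [← hget _ _ (by omega) (by omega)] at h2
        have e1 : i + p + r - 1 - k = i + (r - 1 - k) + p := by omega
        have e2 : i + p + r - 1 - k - p = i + (r - 1 - k) := by omega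
        rw [e2, e1, h2]
    have h3 := h p hp (i + p + r) hlen
    have h4 : (r : ℚ) ≤ mu (fun i => z.getD i d) p (i + p + r) := by exact_mod_cast h1
    linarith

omit [DecidableEq S] in
lemma NB.reverse {lam : ℚ} {z : List S} (h : NB lam z) : NB lam z.reverse := by
  intro i p r hp hr hlen
  rw [List.length_reverse] at hlen
  obtain ⟨j, hj, hne⟩ := h (z.length - (i + p + r)) p r hp hr (by omega)
  refine ⟨r - 1 - j, by omega, ?_⟩
  rw [List.getElem?_reverse (by omega), List.getElem?_reverse (by omega)]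
  have e1 : z.length - 1 - (i + (r - 1 - j)) = z.length - (i + p + r) + j + p := by omega
  have e2 : z.length - 1 - (i + (r - 1 - j) + p) = z.length - (i + p + r) + j := by omega
  rw [e1, e2]
  exact hne.symm

omit [DecidableEq S] in
lemma NB.leftPart {lam : ℚ} {z z' : List S} (h : NB lam (z ++ z')) : NB lam z := by
  intro i p r hp hr hlen
  obtain ⟨j, hj, hne⟩ := h i p r hp hr (by simp; omega)
  refine ⟨j, hj, ?_⟩
  rwa [List.getElem?_append_left (by omega), List.getElem?_append_left (by omega)] at hne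

omit [DecidableEq S] in
/-- Meeting lemma: long words over disjoint alphabets can be glued. -/
lemma meeting {lam : ℚ} (hlam : 0 < lam) (A₁ A₂ : Finset S) (hdisj : Disjoint A₁ A₂)
    (X P R Y : List S) (hL : NB lam (X ++ P)) (hR : NB lam (R ++ Y))
    (hP : ∀ c ∈ P, c ∈ A₁) (hRR : ∀ c ∈ R, c ∈ A₂) (hlen : P.length = R.length)
    (hM : 1 ≤ P.length) (hbig : ((X.length + Y.length : ℕ) : ℚ) < lam * P.length) :
    NB lam (X ++ P ++ (R ++ Y)) := by
  intro i p r hp hr hle
  have hp0 : (0 : ℚ) < p := by exact_mod_cast hp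
  have hr1 : 1 ≤ r := by
    by_contra h0
    have h1 : r = 0 := by omega
    rw [h1] at hr
    have : 0 < lam * p := by positivity
    push_cast at hr
    linarith
  set a := X.length with ha
  set M := P.length with hMdef
  set c := Y.length with hc
  have hlenL : (X ++ P).length = a + M := by simp [ha, hMdef]
  have hlenR : (R ++ Y).length = M + c := by simp [hc, hlen]
  have hle' : i + p + r ≤ a + M + (M + c) := by
    rw [List.length_append, hlenL, hlenR] at hle; exact hle
  -- a mismatch at a position of `P` whose translate lies in `R`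
  have hmis : ∀ s, i ≤ s → s < i + r → a ≤ s → s < a + M → a + M ≤ s + p → s + p < a + 2 * M →
      ∃ j, j < r ∧ (X ++ P ++ (R ++ Y))[i + j]? ≠ (X ++ P ++ (R ++ Y))[i + j + p]? := by
    intro s h1 h2 h3 h4 h5 h6
    refine ⟨s - i, by omega, ?_⟩
    have e1 : i + (s - i) = s := by omega
    rw [e1]
    have g1 : (X ++ P ++ (R ++ Y))[s]? = P[s - a]? := by
      rw [List.getElem?_append_left (by omega), List.getElem?_append_right (by omega)]
    have g2 : (X ++ P ++ (R ++ Y))[s + p]? = R[s + p - (a + M)]? := by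
      rw [List.getElem?_append_right (by omega), hlenL,
        List.getElem?_append_left (by omega)]
    rw [g1, g2, List.getElem?_eq_getElem (by omega), List.getElem?_eq_getElem (by omega)]
    intro heq
    have heq' := Option.some.inj heq
    have m1 := hP _ (List.getElem_mem (l := P) (n := s - a) (by omega))
    have m2 := hRR _ (List.getElem_mem (l := R) (n := s + p - (a + M)) (by omega))
    rw [heq'] at m1
    exact Finset.disjoint_left.mp hdisj m1 m2
  have gl : ∀ k, k < a + M → (X ++ P ++ (R ++ Y))[k]? = (X ++ P)[k]? := by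
    intro k hk
    exact List.getElem?_append_left (by omega)
  have gr : ∀ k, a + M ≤ k → (X ++ P ++ (R ++ Y))[k]? = (R ++ Y)[k - (a + M)]? := by
    intro k hk
    rw [List.getElem?_append_right (by omega), hlenL]
  by_cases hcA : i + p + r ≤ a + M
  · obtain ⟨j, hj, hne⟩ := hL i p r hp hr (by rw [hlenL]; exact hcA)
    refine ⟨j, hj, ?_⟩
    rw [gl _ (by omega), gl _ (by omega)]
    exact hne
  by_cases hcB : a + M ≤ i
  · obtain ⟨j, hj, hne⟩ := hR (i - (a + M)) p r hp hr (by rw [hlenR]; omega)
    refine ⟨j, hj, ?_⟩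
    rw [gr _ (by omega), gr _ (by omega)]
    have e1 : i + j - (a + M) = i - (a + M) + j := by omega
    have e2 : i + j + p - (a + M) = i - (a + M) + j + p := by omega
    rw [e1, e2]
    exact hne
  by_cases hpM : p ≤ M
  · exact hmis (max i (a + M - p)) (le_max_left _ _) (max_lt (by omega) (by omega))
      ((show a ≤ a + M - p by omega).trans (le_max_right _ _)) (max_lt (by omega) (by omega))
      (by have := le_max_right i (a + M - p); omega)
      (by
        rcases le_total i (a + M - p) with h | h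
        · rw [max_eq_right h]; omega
        · rw [max_eq_left h]; omega)
  · have hrbig : a + c < r := by
      have h1 : (M : ℚ) < p := by exact_mod_cast (not_le.mp hpM)
      have h2 : lam * M < lam * p := by nlinarith
      have h3 : ((a + c : ℕ) : ℚ) < r := by linarith
      exact_mod_cast h3
    exact hmis (max i a) (le_max_left _ _) (max_lt (by omega) (by omega))
      (le_max_right _ _) (max_lt (by omega) (by omega))
      (by have := le_max_right i a; omega)
      (by
        rcases le_total i a with h | h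
        · rw [max_eq_right h]; omega
        · rw [max_eq_left h]; omega)

/-- One-sided statement: a word that is extendable enough can be prolonged, after a bounded
number of letters, by arbitrarily long words over a prescribed large set of letters. -/
lemma one_sided [Fintype S] {lam : ℚ} (hlam : 0 < lam)
    (hcard : ⌊1 / lam⌋₊ + 20 ≤ Fintype.card S) (A₁ : Finset S) (hA₁ : ⌊1 / lam⌋₊ + 6 ≤ A₁.card)
    (u : List S) (hu : ∀ N : ℕ, ∃ w : List S, N ≤ w.length ∧ NB lam (u ++ w)) :
    ∃ X : List S, ∀ M : ℕ, ∃ P : List S, P.length = M ∧ (∀ c ∈ P, c ∈ A₁) ∧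
      NB lam ((u ++ X) ++ P) := by
  classical
  have hne : Nonempty S := by
    rw [← Fintype.card_pos_iff]; omega
  obtain ⟨d⟩ := hne
  obtain ⟨M₀, hM₀⟩ := exists_start S hlam hcard u.length
  obtain ⟨w₀, hw₀, hNB⟩ := hu M₀
  have hG := (NB_iff_good hlam (u ++ w₀) d).mp hNB
  obtain ⟨t, ht1, ht2, c, hgood, hpot⟩ := hM₀ _ (hG.mono (by simp; omega))
  set x : ℕ → S := Function.update (fun i => (u ++ w₀).getD i d) t c with hx
  have hxu : ∀ i, i < u.length → x i = u.getD i d := by
    intro i hi
    rw [hx, Function.update_of_ne (by omega)]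
    rw [List.getD_eq_getElem?_getD, List.getD_eq_getElem?_getD,
      List.getElem?_append_left hi]
  refine ⟨(List.range (t + 1 - u.length)).map (fun i => x (u.length + i)), fun M => ?_⟩
  obtain ⟨w', h1, h2, _, h4⟩ := greedy_extend hlam A₁ hA₁ hgood hpot M
  refine ⟨(List.range M).map (fun i => w' (t + 1 + i)), by simp, ?_, ?_⟩
  · intro c hc
    rw [List.mem_map] at hc
    obtain ⟨i, hi, rfl⟩ := hc
    rw [List.mem_range] at hi
    exact h4 _ (by omega) (by omega)
  · set z := (u ++ (List.range (t + 1 - u.length)).map (fun i => x (u.length + i))) ++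
      (List.range M).map (fun i => w' (t + 1 + i)) with hz
    have hzlen : z.length = t + 1 + M := by simp [hz]; omega
    rw [NB_iff_good hlam z d, hzlen]
    refine h2.congr ?_
    intro i hi
    have hz' : z.getD i d = w' i := by
      rw [List.getD_eq_getElem?_getD]
      by_cases hi1 : i < t + 1
      · rw [hz, List.getElem?_append_left (by simp; omega)]
        by_cases hi2 : i < u.length
        · rw [List.getElem?_append_left hi2, h1 i hi1, hxu i hi2, List.getD_eq_getElem?_getD]
        · rw [List.getElem?_append_right (by omega), List.getElem?_map,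
            List.getElem?_range (by omega)]
          simp only [Option.map_some, Option.getD_some]
          rw [h1 i hi1]
          congr 1; omega
      · have hlen2 : (u ++ (List.range (t + 1 - u.length)).map
            (fun i => x (u.length + i))).length = t + 1 := by simp; omega
        rw [hz, List.getElem?_append_right (by rw [hlen2]; omega), hlen2, List.getElem?_map,
            List.getElem?_range (by omega)]
        simp only [Option.map_some, Option.getD_some]
        congr 1; omega
    exact hz'.symm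

/-- Transition property for large alphabets. -/
theorem transition [Fintype S] {α : ℚ} (hα : 1 < α)
    (h1 : 2 * ⌊1 / (α - 1)⌋₊ + 12 ≤ Fintype.card S)
    (h2 : ⌊1 / (α - 1)⌋₊ + 20 ≤ Fintype.card S) (u v : List S)
    (hu : ∀ N : ℕ, ∃ w : List S, N ≤ w.length ∧ PF α (u ++ w))
    (hv : ∀ N : ℕ, ∃ w : List S, N ≤ w.length ∧ PF α (w ++ v)) :
    ∃ w : List S, PF α (u ++ w ++ v) := by
  classical
  have hlam : 0 < α - 1 := by linarith
  simp only [PF_iff_NB hα] at hu hv ⊢
  obtain ⟨A₁, -, hA₁⟩ := Finset.exists_subset_card_eq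
    (show ⌊1 / (α - 1)⌋₊ + 6 ≤ (Finset.univ : Finset S).card by rw [Finset.card_univ]; omega)
  have hA₂ : ⌊1 / (α - 1)⌋₊ + 6 ≤ (A₁ᶜ).card := by
    rw [Finset.card_compl]; omega
  obtain ⟨X, hX⟩ := one_sided hlam h2 A₁ hA₁.ge u hu
  obtain ⟨Y, hY⟩ := one_sided hlam h2 A₁ᶜ hA₂ v.reverse (by
    intro N
    obtain ⟨w, hw, hNB⟩ := hv N
    refine ⟨w.reverse, by simpa using hw, ?_⟩
    have := hNB.reverse
    rwa [List.reverse_append] at this)
  obtain ⟨M, hM⟩ := exists_nat_gt
    ((((u ++ X).length + (v.reverse ++ Y).reverse.length : ℕ) : ℚ) / (α - 1))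
  obtain ⟨P, hP1, hP2, hP3⟩ := hX (M + 1)
  obtain ⟨R, hR1, hR2, hR3⟩ := hY (M + 1)
  have hR4 := hR3.reverse
  rw [List.reverse_append] at hR4
  have key := meeting hlam A₁ A₁ᶜ disjoint_compl_right (u ++ X) P R.reverse
    (v.reverse ++ Y).reverse hP3 hR4 hP2 (fun c hc => hR2 c (List.mem_reverse.mp hc))
    (by rw [List.length_reverse, hP1, hR1]) (by omega) (by
      rw [div_lt_iff₀ hlam] at hM
      rw [hP1]
      push_cast at hM ⊢
      nlinarith)
  refine ⟨X ++ P ++ R.reverse ++ Y.reverse, ?_⟩
  have e : u ++ X ++ P ++ (R.reverse ++ (v.reverse ++ Y).reverse) =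
      u ++ (X ++ P ++ R.reverse ++ Y.reverse) ++ v := by
    simp [List.reverse_append, List.append_assoc]
  rwa [e] at key

end Pool.Agent.Helper85.PowerFree
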