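import Mathlib
import Pool.Agent.Helper85.PowerFree

set_option autoImplicit false

namespace Pool.Agent.Helper85.PowerFree

section Comp

variable {n : ℕ}

/-- all words of length `N` -/
def words (n : ℕ) : ℕ → List (List (Fin n))
  | 0 => [[]]
  | (N + 1) => (words n N).flatMap (fun w => (List.finRange n).map (fun c => c :: w))

lemma mem_words (N : ℕ) : ∀ w : List (Fin n), w ∈ words n N ↔ w.length = N := by
  induction N with
  | zero => intro w; simp [words]
  | succ N ih =>
    intro w
    simp only [words, List.mem_flatMap, List.mem_map]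
    constructor
    · rintro ⟨w', hw', c, _, rfl⟩
      rw [List.length_cons, (ih w').mp hw']
    · intro h
      rcases w with _ | ⟨c, w'⟩
      · simp at h
      · refine ⟨w', (ih w').mpr (by simpa using h), c, List.mem_finRange c, rfl⟩

lemma primrec_words (n : ℕ) : Primrec (words n) := by
  have h : Primrec (fun N : ℕ => (Nat.rec [[]] (fun _ (IH : List (List (Fin n))) =>
      IH.flatMap (fun w => (List.finRange n).map (fun c => c :: w))) N :
        List (List (Fin n)))) := by
    refine Primrec.nat_rec₁ [[]] ?_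
    refine Primrec.list_flatMap Primrec.snd ?_
    refine Primrec.list_map (Primrec.const _) ?_
    exact Primrec.list_cons.comp Primrec.snd (Primrec.snd.comp Primrec.fst)
  refine h.of_eq ?_
  intro N
  induction N with
  | zero => rfl
  | succ N ih => simp only [words, ← ih]

lemma primrec_getElem {β : Type*} [Primcodable β] {f : β → List (Fin n)} {g : β → ℕ}
    (hf : Primrec f) (hg : Primrec g) : Primrec (fun b => (f b)[g b]?) :=
  Primrec.list_getElem?.comp hf hg

lemma primrec_NB {α : ℚ} (hα : 1 < α) :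
    PrimrecPred (fun z : List (Fin n) => NB (α - 1) z) := by
  -- inner relation
  have h4 : PrimrecRel (fun (j : ℕ) (c : List (Fin n) × ℕ × ℕ × ℕ) =>
      ¬ (c.1[c.2.1 + j]? = c.1[c.2.1 + j + c.2.2.1]?)) := by
    apply PrimrecPred.not
    have hz : Primrec (fun a : ℕ × (List (Fin n) × ℕ × ℕ × ℕ) => a.2.1) :=
      Primrec.fst.comp Primrec.snd
    have hi : Primrec (fun a : ℕ × (List (Fin n) × ℕ × ℕ × ℕ) => a.2.2.1) :=
      Primrec.fst.comp (Primrec.snd.comp Primrec.snd)
    have hp : Primrec (fun a : ℕ × (List (Fin n) × ℕ × ℕ × ℕ) => a.2.2.2.1) :=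
      Primrec.fst.comp (Primrec.snd.comp (Primrec.snd.comp Primrec.snd))
    have hj : Primrec (fun a : ℕ × (List (Fin n) × ℕ × ℕ × ℕ) => a.1) := Primrec.fst
    exact Primrec.eq.comp (primrec_getElem hz (Primrec.nat_add.comp hi hj))
      (primrec_getElem hz (Primrec.nat_add.comp (Primrec.nat_add.comp hi hj) hp))
  have h4' : PrimrecPred (fun c : List (Fin n) × ℕ × ℕ × ℕ =>
      ∃ j ∈ List.range c.2.2.2, ¬ (c.1[c.2.1 + j]? = c.1[c.2.1 + j + c.2.2.1]?)) :=
    h4.exists_mem_list.comp (Primrec.list_range.comp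
      (Primrec.snd.comp (Primrec.snd.comp Primrec.snd))) Primrec.id
  -- body
  have h3 : PrimrecRel (fun (r : ℕ) (c : List (Fin n) × ℕ × ℕ) =>
      c.2.2 = 0 ∨ ¬ (α.num.toNat * c.2.2 ≤ α.den * (c.2.2 + r)) ∨
        ¬ (c.2.1 + c.2.2 + r ≤ c.1.length) ∨
        ∃ j ∈ List.range r, ¬ (c.1[c.2.1 + j]? = c.1[c.2.1 + j + c.2.2]?)) := by
    have hz : Primrec (fun a : ℕ × (List (Fin n) × ℕ × ℕ) => a.2.1) :=
      Primrec.fst.comp Primrec.snd
    have hi : Primrec (fun a : ℕ × (List (Fin n) × ℕ × ℕ) => a.2.2.1) :=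
      Primrec.fst.comp (Primrec.snd.comp Primrec.snd)
    have hp : Primrec (fun a : ℕ × (List (Fin n) × ℕ × ℕ) => a.2.2.2) :=
      Primrec.snd.comp (Primrec.snd.comp Primrec.snd)
    have hr : Primrec (fun a : ℕ × (List (Fin n) × ℕ × ℕ) => a.1) := Primrec.fst
    refine PrimrecPred.or (Primrec.eq.comp hp (Primrec.const 0)) (PrimrecPred.or
      (PrimrecPred.not (Primrec.nat_le.comp (Primrec.nat_mul.comp (Primrec.const _) hp)
        (Primrec.nat_mul.comp (Primrec.const _) (Primrec.nat_add.comp hp hr))))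
      (PrimrecPred.or (PrimrecPred.not (Primrec.nat_le.comp
        (Primrec.nat_add.comp (Primrec.nat_add.comp hi hp) hr)
        (Primrec.list_length.comp hz))) ?_))
    exact h4'.comp (hz.pair (hi.pair (hp.pair hr)))
  have h3' : PrimrecPred (fun c : List (Fin n) × ℕ × ℕ =>
      ∀ r ∈ List.range (c.1.length + 1), c.2.2 = 0 ∨
        ¬ (α.num.toNat * c.2.2 ≤ α.den * (c.2.2 + r)) ∨
        ¬ (c.2.1 + c.2.2 + r ≤ c.1.length) ∨
        ∃ j ∈ List.range r, ¬ (c.1[c.2.1 + j]? = c.1[c.2.1 + j + c.2.2]?)) :=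
    h3.forall_mem_list.comp (Primrec.list_range.comp
      (Primrec.succ.comp (Primrec.list_length.comp Primrec.fst))) Primrec.id
  have h2 : PrimrecRel (fun (p : ℕ) (c : List (Fin n) × ℕ) =>
      ∀ r ∈ List.range (c.1.length + 1), p = 0 ∨
        ¬ (α.num.toNat * p ≤ α.den * (p + r)) ∨
        ¬ (c.2 + p + r ≤ c.1.length) ∨
        ∃ j ∈ List.range r, ¬ (c.1[c.2 + j]? = c.1[c.2 + j + p]?)) :=
    h3'.comp ((Primrec.fst.comp Primrec.snd).pair
      ((Primrec.snd.comp Primrec.snd).pair Primrec.fst))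
  have h2' : PrimrecPred (fun c : List (Fin n) × ℕ => ∀ p ∈ List.range (c.1.length + 1),
      ∀ r ∈ List.range (c.1.length + 1), p = 0 ∨
        ¬ (α.num.toNat * p ≤ α.den * (p + r)) ∨
        ¬ (c.2 + p + r ≤ c.1.length) ∨
        ∃ j ∈ List.range r, ¬ (c.1[c.2 + j]? = c.1[c.2 + j + p]?)) :=
    h2.forall_mem_list.comp (Primrec.list_range.comp
      (Primrec.succ.comp (Primrec.list_length.comp Primrec.fst))) Primrec.id
  have h1 : PrimrecRel (fun (i : ℕ) (z : List (Fin n)) => ∀ p ∈ List.range (z.length + 1),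
      ∀ r ∈ List.range (z.length + 1), p = 0 ∨
        ¬ (α.num.toNat * p ≤ α.den * (p + r)) ∨
        ¬ (i + p + r ≤ z.length) ∨
        ∃ j ∈ List.range r, ¬ (z[i + j]? = z[i + j + p]?)) :=
    h2'.comp (Primrec.snd.pair Primrec.fst)
  have h0 : PrimrecPred (fun z : List (Fin n) => ∀ i ∈ List.range (z.length + 1),
      ∀ p ∈ List.range (z.length + 1),
      ∀ r ∈ List.range (z.length + 1), p = 0 ∨
        ¬ (α.num.toNat * p ≤ α.den * (p + r)) ∨
        ¬ (i + p + r ≤ z.length) ∨
        ∃ j ∈ List.range r, ¬ (z[i + j]? = z[i + j + p]?)) :=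
    h1.forall_mem_list.comp (Primrec.list_range.comp
      (Primrec.succ.comp Primrec.list_length)) Primrec.id
  refine h0.of_eq ?_
  intro z
  have hα0 : 0 < α := by linarith
  have hnum : ((α.num.toNat : ℕ) : ℚ) = α.num := by
    have : (0 : ℤ) ≤ α.num := (Rat.num_pos.mpr hα0).le
    have h5 : ((α.num.toNat : ℕ) : ℤ) = α.num := Int.toNat_of_nonneg this
    exact_mod_cast h5
  have hden : (0 : ℚ) < α.den := by exact_mod_cast α.den_pos
  have hiff : ∀ p r : ℕ, (α.num.toNat * p ≤ α.den * (p + r)) ↔ (α - 1) * p ≤ r := by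
    intro p r
    have e1 : α = α.num / α.den := (Rat.num_div_den α).symm
    have : ((α.num.toNat * p : ℕ) : ℚ) ≤ ((α.den * (p + r) : ℕ) : ℚ) ↔ (α - 1) * p ≤ r := by
      push_cast
      rw [hnum]
      have e2 : (α.num : ℚ) = α * α.den := by
        rw [eq_comm, ← eq_div_iff hden.ne']
        exact e1
      rw [e2]
      constructor
      · intro h
        have h6 : (α.den : ℚ) * (α * p) ≤ α.den * (p + r) := by linarith
        have := le_of_mul_le_mul_left h6 hden
        linarith
      · intro h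
        have h6 : α * p ≤ p + r := by linarith
        have := mul_le_mul_of_nonneg_left h6 hden.le
        linarith
    rw [← this, Nat.cast_le]
  constructor
  · intro h i p r hp hr hlen
    rcases h i (List.mem_range.mpr (by omega)) p (List.mem_range.mpr (by omega)) r
      (List.mem_range.mpr (by omega)) with h | h | h | h
    · omega
    · exact absurd ((hiff p r).mpr hr) h
    · exact absurd hlen h
    · obtain ⟨j, hj, hne⟩ := h
      exact ⟨j, List.mem_range.mp hj, hne⟩
  · intro h i _ p _ r _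
    by_cases hp : p = 0
    · exact Or.inl hp
    by_cases hr : α.num.toNat * p ≤ α.den * (p + r)
    · by_cases hlen : i + p + r ≤ z.length
      · obtain ⟨j, hj, hne⟩ := h i p r (by omega) ((hiff p r).mp hr) hlen
        exact Or.inr (Or.inr (Or.inr ⟨j, List.mem_range.mpr hj, hne⟩))
      · exact Or.inr (Or.inr (Or.inl hlen))
    · exact Or.inr (Or.inl hr)

/-- If the transition property holds, then transitions are decidable. -/
theorem computable_of_transition {α : ℚ} (hα : 1 < α)
    (htrans : ∀ u v : List (Fin n), (∀ N : ℕ, ∃ w : List (Fin n), N ≤ w.length ∧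
      PF α (u ++ w)) → (∀ N : ℕ, ∃ w : List (Fin n), N ≤ w.length ∧ PF α (w ++ v)) →
      ∃ w : List (Fin n), PF α (u ++ w ++ v)) :
    ComputablePred (fun q : List (Fin n) × List (Fin n) =>
      ∃ w : List (Fin n), PF α (q.1 ++ w ++ q.2)) := by
  classical
  simp only [PF_iff_NB hα] at htrans ⊢
  have hNB : PrimrecPred (fun z : List (Fin n) => NB (α - 1) z) := primrec_NB hα
  -- three bounded searches
  have hA : PrimrecPred (fun a : (List (Fin n) × List (Fin n)) × ℕ =>
      ∃ w ∈ words n a.2, NB (α - 1) (a.1.1 ++ w ++ a.1.2)) := by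
    have h : PrimrecRel (fun (w : List (Fin n)) (a : (List (Fin n) × List (Fin n)) × ℕ) =>
        NB (α - 1) (a.1.1 ++ w ++ a.1.2)) :=
      hNB.comp (Primrec.list_append.comp (Primrec.list_append.comp
        (Primrec.fst.comp (Primrec.fst.comp Primrec.snd)) Primrec.fst)
        (Primrec.snd.comp (Primrec.fst.comp Primrec.snd)))
    exact h.exists_mem_list.comp ((primrec_words n).comp Primrec.snd) Primrec.id
  have hB : PrimrecPred (fun a : (List (Fin n) × List (Fin n)) × ℕ =>
      ∃ w ∈ words n a.2, NB (α - 1) (a.1.1 ++ w)) := by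
    have h : PrimrecRel (fun (w : List (Fin n)) (a : (List (Fin n) × List (Fin n)) × ℕ) =>
        NB (α - 1) (a.1.1 ++ w)) :=
      hNB.comp (Primrec.list_append.comp
        (Primrec.fst.comp (Primrec.fst.comp Primrec.snd)) Primrec.fst)
    exact h.exists_mem_list.comp ((primrec_words n).comp Primrec.snd) Primrec.id
  have hC : PrimrecPred (fun a : (List (Fin n) × List (Fin n)) × ℕ =>
      ∃ w ∈ words n a.2, NB (α - 1) (w ++ a.1.2)) := by
    have h : PrimrecRel (fun (w : List (Fin n)) (a : (List (Fin n) × List (Fin n)) × ℕ) =>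
        NB (α - 1) (w ++ a.1.2)) :=
      hNB.comp (Primrec.list_append.comp Primrec.fst
        (Primrec.snd.comp (Primrec.fst.comp Primrec.snd)))
    exact h.exists_mem_list.comp ((primrec_words n).comp Primrec.snd) Primrec.id
  let Stop : (List (Fin n) × List (Fin n)) → ℕ → Prop := fun q N =>
    (∃ w ∈ words n N, NB (α - 1) (q.1 ++ w ++ q.2)) ∨
    (¬ ∃ w ∈ words n N, NB (α - 1) (q.1 ++ w)) ∨
    (¬ ∃ w ∈ words n N, NB (α - 1) (w ++ q.2))
  have hStop : PrimrecPred (fun a : (List (Fin n) × List (Fin n)) × ℕ => Stop a.1 a.2) :=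
    hA.or (hB.not.or hC.not)
  have hleft : ∀ u w : List (Fin n), NB (α - 1) (u ++ w) → ∀ N, N ≤ w.length →
      ∃ w' ∈ words n N, NB (α - 1) (u ++ w') := by
    intro u w h N hN
    refine ⟨w.take N, (mem_words N _).mpr (by simp [hN]), ?_⟩
    have e : u ++ w = (u ++ w.take N) ++ w.drop N := by
      rw [List.append_assoc, List.take_append_drop]
    rw [e] at h
    exact h.leftPart
  have hright : ∀ w v : List (Fin n), NB (α - 1) (w ++ v) → ∀ N, N ≤ w.length →
      ∃ w' ∈ words n N, NB (α - 1) (w' ++ v) := by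
    intro w v h N hN
    have h1 := h.reverse
    rw [List.reverse_append] at h1
    obtain ⟨w', hw', hNB'⟩ := hleft _ _ h1 N (by simpa using hN)
    refine ⟨w'.reverse, (mem_words N _).mpr (by simpa using (mem_words N _).mp hw'), ?_⟩
    have := hNB'.reverse
    rwa [List.reverse_append, List.reverse_reverse] at this
  have hex : ∀ q, ∃ N, Stop q N := by
    rintro ⟨u, v⟩
    by_contra hcon
    push Not at hcon
    have h1 : ∀ N : ℕ, ∃ w : List (Fin n), N ≤ w.length ∧ NB (α - 1) (u ++ w) := by
      intro N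
      have := hcon N
      simp only [Stop, not_or, not_not] at this
      obtain ⟨w, hw, hNB'⟩ := this.2.1
      exact ⟨w, ((mem_words N w).mp hw).ge, hNB'⟩
    have h2 : ∀ N : ℕ, ∃ w : List (Fin n), N ≤ w.length ∧ NB (α - 1) (w ++ v) := by
      intro N
      have := hcon N
      simp only [Stop, not_or, not_not] at this
      obtain ⟨w, hw, hNB'⟩ := this.2.2
      exact ⟨w, ((mem_words N w).mp hw).ge, hNB'⟩
    obtain ⟨w, hw⟩ := htrans u v h1 h2
    exact hcon w.length (Or.inl ⟨w, (mem_words _ w).mpr rfl, hw⟩)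
  have hfind : Computable (fun q => Nat.find (hex q)) :=
    Computable.find hStop.computablePred hex
  -- bounded answer
  have hAns : PrimrecPred (fun a : (List (Fin n) × List (Fin n)) × ℕ =>
      ∃ m ∈ List.range (a.2 + 1), ∃ w ∈ words n m, NB (α - 1) (a.1.1 ++ w ++ a.1.2)) := by
    have h : PrimrecRel (fun (m : ℕ) (a : (List (Fin n) × List (Fin n)) × ℕ) =>
        ∃ w ∈ words n m, NB (α - 1) (a.1.1 ++ w ++ a.1.2)) :=
      hA.comp ((Primrec.fst.comp Primrec.snd).pair Primrec.fst)
    exact h.exists_mem_list.comp (Primrec.list_range.comp (Primrec.succ.comp Primrec.snd))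
      Primrec.id
  have hfinal : ComputablePred (fun q : List (Fin n) × List (Fin n) =>
      ∃ m ∈ List.range (Nat.find (hex q) + 1), ∃ w ∈ words n m,
        NB (α - 1) (q.1 ++ w ++ q.2)) := by
    obtain ⟨f, hf, hfeq⟩ := ComputablePred.computable_iff.mp hAns.computablePred
    rw [ComputablePred.computable_iff]
    refine ⟨fun q => f (q, Nat.find (hex q)), hf.comp (Computable.id.pair hfind), ?_⟩
    funext q
    exact congrFun hfeq (q, Nat.find (hex q))
  refine hfinal.of_eq ?_
  rintro ⟨u, v⟩
  constructor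
  · rintro ⟨m, _, w, _, hw⟩
    exact ⟨w, hw⟩
  · rintro ⟨w, hw⟩
    have hspec := Nat.find_spec (hex (u, v))
    set N := Nat.find (hex (u, v)) with hN
    by_cases hlen : w.length ≤ N
    · exact ⟨w.length, List.mem_range.mpr (by omega), w, (mem_words _ w).mpr rfl, hw⟩
    · rcases hspec with h | h | h
      · obtain ⟨w', hw', hNB'⟩ := h
        exact ⟨N, List.mem_range.mpr (by omega), w', hw', hNB'⟩
      · exfalso
        apply h
        exact hleft u w hw.leftPart N (by omega)
      · exfalso
        apply h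
        have h1 := hw.reverse
        simp only [List.reverse_append] at h1
        rw [← List.append_assoc] at h1
        have h2 := h1.leftPart.reverse
        simp only [List.reverse_append, List.reverse_reverse] at h2
        exact hright w v h2 N (by omega)

end Comp

end Pool.Agent.Helper85.PowerFree
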